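import Mathlib
import Pool.Agent.NearTrans.Main

namespace Pool.Agent.Results.MP_053bca_co.Main

universe u

/-- The rank of the chain of the Cayley table of `Q` given by the permutation `θ` (cells
`(x, θ x)`): the number of distinct symbols `x * θ x`. -/
noncomputable def chainRank {Q : Type u} [Mul Q] (θ : Equiv.Perm Q) : ℕ :=
  (Set.range fun x : Q => x * θ x).ncard

/-- `Q` is `t`-admissible: some chain of its Cayley table has rank `t`. -/
def IsAdmissible (Q : Type u) [Mul Q] (t : ℕ) : Prop :=
  ∃ θ : Equiv.Perm Q, chainRank θ = t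

/-- Every non-abelian group of odd order `n` is `(n-1)`-admissible. -/
theorem result (G : Type u) [Group G] [Finite G] (hodd : Odd (Nat.card G))
    (hnonab : ∃ a b : G, a * b ≠ b * a) : IsAdmissible G (Nat.card G - 1) := by
  obtain ⟨θ, p, h⟩ := Pool.Agent.NearTrans.main (Nat.card G) G rfl hodd hnonab
  refine ⟨θ, ?_⟩
  have hset : (Set.range fun x : G => x * θ x) = {p}ᶜ := by
    ext g
    rw [Set.mem_range, Set.mem_compl_iff, Set.mem_singleton_iff]
    exact h g
  unfold chainRank
  rw [hset, Set.ncard_compl, Set.ncard_singleton]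

end Pool.Agent.Results.MP_053bca_co.Main
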